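import Pool.Agent.H12.SP.Defs

/-!
# Module FIN of the board sp2_modules (MP_634266_nt)
-/

set_option autoImplicit false

namespace Pool.Agent.H58.SP

open Pool.Agent.H12.SP Finset

theorem lt_pow_yy (x : ℕ) : x < 2 ^ (100 * yy x + 100) := by
  have h1 : x < 2 ^ (Nat.log 2 x).succ := Nat.lt_pow_succ_log_self (by norm_num) x
  refine h1.trans_le (Nat.pow_le_pow_right (by norm_num) ?_)
  unfold yy
  omega

theorem sq_le_yy (x : ℕ) (h : 2 ^ 201 ≤ yy x) : x ^ 2 ≤ (yy x) ^ (2 * yy x) := by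
  have h1 := lt_pow_yy x
  have hy : 1 ≤ yy x := le_trans Nat.one_le_two_pow h
  have h2 : x ^ 2 ≤ 2 ^ ((100 * yy x + 100) * 2) := by
    rw [pow_mul]
    exact Nat.pow_le_pow_left h1.le 2
  have h3 : 2 ^ ((100 * yy x + 100) * 2) ≤ (2 ^ 201) ^ (2 * yy x) := by
    rw [← pow_mul]
    apply Nat.pow_le_pow_right (by norm_num)
    clear h h1 h2
    omega
  exact h2.trans (h3.trans (Nat.pow_le_pow_left h _))

theorem yy_large (N : ℕ) : ∃ x₁ : ℕ, ∀ x : ℕ, x₁ ≤ x → N ≤ yy x := by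
  refine ⟨2 ^ (100 * N), fun x hx => ?_⟩
  have hx0 : x ≠ 0 := by
    have := Nat.one_le_two_pow (n := 100 * N)
    omega
  have h1 : 100 * N ≤ Nat.log 2 x := Nat.le_log_of_pow_le (by norm_num) hx
  unfold yy
  omega

theorem cube_lt (x n : ℕ) (h : n ^ 3 < x ^ 2) : (n : ℝ) ≤ (x : ℝ) ^ (2 / 3 : ℝ) := by
  have h1 : (n : ℝ) ^ 3 ≤ (x : ℝ) ^ 2 := by exact_mod_cast h.le
  have h2 : (n : ℝ) = ((n : ℝ) ^ 3) ^ (1 / 3 : ℝ) := by
    rw [← Real.rpow_natCast, ← Real.rpow_mul (by positivity)]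
    norm_num
  have h3 : ((x : ℝ) ^ 2) ^ (1 / 3 : ℝ) = (x : ℝ) ^ (2 / 3 : ℝ) := by
    rw [← Real.rpow_natCast, ← Real.rpow_mul (by positivity)]
    norm_num
  rw [h2, ← h3]
  exact Real.rpow_le_rpow (by positivity) h1 (by norm_num)

theorem small_card (x : ℕ) :
    ((((range (x + 1)).filter fun n => n ^ 3 < x ^ 2).card : ℕ) : ℝ)
      ≤ (x : ℝ) ^ (2 / 3 : ℝ) + 1 := by
  have h1 : ((range (x + 1)).filter fun n => n ^ 3 < x ^ 2)
      ⊆ range (⌊(x : ℝ) ^ (2 / 3 : ℝ)⌋₊ + 1) := by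
    intro n hn
    rw [mem_filter] at hn
    rw [mem_range]
    have := Nat.le_floor (cube_lt x n hn.2)
    omega
  have h2 := card_le_card h1
  rw [card_range] at h2
  have h3 : (⌊(x : ℝ) ^ (2 / 3 : ℝ)⌋₊ : ℝ) ≤ (x : ℝ) ^ (2 / 3 : ℝ) :=
    Nat.floor_le (by positivity)
  have h4 : ((((range (x + 1)).filter fun n => n ^ 3 < x ^ 2).card : ℕ) : ℝ)
      ≤ ((⌊(x : ℝ) ^ (2 / 3 : ℝ)⌋₊ + 1 : ℕ) : ℝ) := by exact_mod_cast h2
  push_cast at h4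
  linarith

theorem log_bd (ε : ℝ) (hε : 0 < ε) (x : ℕ) (hx : 1 ≤ x) :
    (1 + Real.log x) ^ 2 ≤ (1 + 2 / ε) ^ 2 * (x : ℝ) ^ ε := by
  have hx1 : (1 : ℝ) ≤ x := by exact_mod_cast hx
  have h1 : Real.log x ≤ (x : ℝ) ^ (ε / 2) / (ε / 2) :=
    Real.log_le_rpow_div (by positivity) (by positivity)
  have h2 : (1 : ℝ) ≤ (x : ℝ) ^ (ε / 2) := Real.one_le_rpow hx1 (by positivity)
  have h0 : 0 ≤ Real.log x := Real.log_nonneg hx1
  have h3 : 1 + Real.log x ≤ (1 + 2 / ε) * (x : ℝ) ^ (ε / 2) := by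
    have : (x : ℝ) ^ (ε / 2) / (ε / 2) = 2 / ε * (x : ℝ) ^ (ε / 2) := by
      field_simp
    rw [this] at h1
    linarith
  have h4 : ((x : ℝ) ^ (ε / 2)) ^ 2 = (x : ℝ) ^ ε := by
    rw [← Real.rpow_natCast, ← Real.rpow_mul (by positivity)]
    congr 1
    push_cast
    ring
  calc (1 + Real.log x) ^ 2 ≤ ((1 + 2 / ε) * (x : ℝ) ^ (ε / 2)) ^ 2 :=
        pow_le_pow_left₀ (by positivity) h3 2
    _ = (1 + 2 / ε) ^ 2 * (x : ℝ) ^ ε := by rw [mul_pow, h4]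

/-- the three cases -/
def P1 (x n : ℕ) : Prop :=
  ∃ l p : ℕ, 2 ^ l < n ∧ p.Prime ∧ x ≤ p ^ 3 ∧ p ^ 2 ∣ n - 2 ^ l

def P2 (x n : ℕ) : Prop :=
  ∃ l l' p p' : ℕ, l ≠ l' ∧ p ≠ p' ∧ p.Prime ∧ p'.Prime ∧ 2 ^ l < n ∧
    2 ^ l' < n ∧ p ^ 3 < x ∧ p' ^ 3 < x ∧ x ≤ (p * p') ^ 2 ∧ p ^ 2 ∣ n - 2 ^ l ∧
    p' ^ 2 ∣ n - 2 ^ l'

def P3 (x n : ℕ) : Prop :=
  ∃ (T : Finset ℕ) (p : ℕ → ℕ), (∀ l ∈ T, (p l).Prime ∧ yy x < p l) ∧
    (∀ l ∈ T, ∀ l' ∈ T, p l = p l' → l = l') ∧ Hit T p n ∧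
    x ^ 2 ≤ (∏ l ∈ T, p l ^ 2) ^ 3 ∧ ∏ l ∈ T, p l ^ 2 ≤ x

theorem cases3 (hSEL : T_SEL) (x n : ℕ) (hx : 1 ≤ x) (hyx : x ^ 2 ≤ (yy x) ^ (2 * yy x))
    (hy1 : 1 ≤ yy x)
    (S : Finset ℕ) (p : ℕ → ℕ) (hS : yy x ≤ S.card)
    (hinj : ∀ l ∈ S, ∀ l' ∈ S, p l = p l' → l = l')
    (hp : ∀ l ∈ S, 2 ^ l < n ∧ (p l).Prime ∧ p l ≠ 2 ∧ yy x < p l ∧ p l ^ 2 ∣ n - 2 ^ l) :
    P1 x n ∨ P2 x n ∨ P3 x n := by
  have h1 : x ^ 2 ≤ ∏ l ∈ S, p l ^ 2 := by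
    calc x ^ 2 ≤ (yy x) ^ (2 * yy x) := hyx
      _ ≤ (yy x) ^ (2 * S.card) := Nat.pow_le_pow_right hy1 (by omega)
      _ = ∏ l ∈ S, (yy x) ^ 2 := by rw [prod_const, ← pow_mul]
      _ ≤ ∏ l ∈ S, p l ^ 2 :=
        prod_le_prod' fun l hl => Nat.pow_le_pow_left (hp l hl).2.2.2.1.le 2
  rcases hSEL x S p hx (fun l hl => (hp l hl).2.1.two_le) h1 with h | h | h
  · obtain ⟨l, hl, hle⟩ := h
    exact Or.inl ⟨l, p l, (hp l hl).1, (hp l hl).2.1, hle, (hp l hl).2.2.2.2⟩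
  · obtain ⟨l, hl, l', hl', hne, h3, h4, h5⟩ := h
    exact Or.inr (Or.inl ⟨l, l', p l, p l', hne, fun h => hne (hinj l hl l' hl' h),
      (hp l hl).2.1, (hp l' hl').2.1, (hp l hl).1, (hp l' hl').1, h3, h4, h5,
      (hp l hl).2.2.2.2, (hp l' hl').2.2.2.2⟩)
  · obtain ⟨T, hT, h3, h4⟩ := h
    exact Or.inr (Or.inr ⟨T, p, fun l hl => ⟨(hp l (hT hl)).2.1, (hp l (hT hl)).2.2.2.1⟩,
      fun l hl l' hl' => hinj l (hT hl) l' (hT hl'),
      fun l hl => ⟨(hp l (hT hl)).1, (hp l (hT hl)).2.2.2.2⟩, h3, h4⟩)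

theorem mem_EX {x n : ℕ} (h : n ∈ EX x) : n ∈ range (x + 1) := by
  unfold EX at h
  exact (mem_filter.mp h).1

theorem pf_fin (hPAIR : T_PAIR) (hSEL : T_SEL) (hCA : T_CA) (hCB : T_CB) (hRNK : T_RNK) :
    T_FIN := by
  classical
  intro ε hε
  obtain ⟨x0, hx0⟩ := hPAIR
  obtain ⟨CA, hCA⟩ := hCA
  obtain ⟨CB, hCB⟩ := hCB
  obtain ⟨CR, hCR⟩ := hRNK ε hε
  obtain ⟨N, hN⟩ : ∃ N : ℕ, N = 2 ^ 201 := ⟨_, rfl⟩
  obtain ⟨x2, hx2⟩ := yy_large N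
  set K : ℝ := (1 + 2 / ε) ^ 2 with hK
  have hK0 : 0 ≤ K := by positivity
  refine ⟨(max x0 x2 + 1 : ℕ) + 2 + |CA| * K + |CB| * K + |CR|, fun x hx => ?_⟩
  have hx1 : (1 : ℝ) ≤ x := by exact_mod_cast hx
  have hxe : (1 : ℝ) ≤ (x : ℝ) ^ (2 / 3 + ε) := Real.one_le_rpow hx1 (by positivity)
  have hM0 : (0 : ℝ) ≤ ((max x0 x2 + 1 : ℕ) : ℝ) := by positivity
  have hA0 : 0 ≤ |CA| * K := by positivity
  have hB0 : 0 ≤ |CB| * K := by positivity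
  have hR0 : 0 ≤ |CR| := by positivity
  by_cases hxl : x < max x0 x2
  · have h1 : (EX x).card ≤ x + 1 := by
      have := card_le_card (fun n hn => mem_EX hn : EX x ⊆ range (x + 1))
      rwa [card_range] at this
    have h2 : ((EX x).card : ℝ) ≤ ((max x0 x2 + 1 : ℕ) : ℝ) := by
      exact_mod_cast h1.trans (by omega)
    nlinarith [mul_nonneg hM0 (sub_nonneg.mpr hxe), mul_nonneg hA0 (sub_nonneg.mpr hxe),
      mul_nonneg hB0 (sub_nonneg.mpr hxe), mul_nonneg hR0 (sub_nonneg.mpr hxe)]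
  · have hx0x : x0 ≤ x := by
      have := le_max_left x0 x2
      omega
    have hx2x : x2 ≤ x := by
      have := le_max_right x0 x2
      omega
    have hNy := hx2 x hx2x
    have hyx : x ^ 2 ≤ (yy x) ^ (2 * yy x) := sq_le_yy x (by rw [← hN]; exact hNy)
    have hy1 : 1 ≤ yy x := by
      refine le_trans ?_ hNy
      rw [hN]
      exact Nat.one_le_two_pow
    have hsub : EX x ⊆ (((range (x + 1)).filter fun n => n ^ 3 < x ^ 2) ∪
        ((range (x + 1)).filter fun n => P1 x n)) ∪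
        (((range (x + 1)).filter fun n => P2 x n) ∪
        ((range (x + 1)).filter fun n => P3 x n)) := by
      intro n hn
      have hnr := mem_EX hn
      simp only [mem_union, mem_filter]
      by_cases hn3 : n ^ 3 < x ^ 2
      · exact Or.inl (Or.inl ⟨hnr, hn3⟩)
      · obtain ⟨S, p, hS, hinj, hp⟩ := hx0 x n hx0x hn (not_lt.mp hn3)
        rcases cases3 hSEL x n hx hyx hy1 S p hS hinj hp with h | h | h
        · exact Or.inl (Or.inr ⟨hnr, h⟩)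
        · exact Or.inr (Or.inl ⟨hnr, h⟩)
        · exact Or.inr (Or.inr ⟨hnr, h⟩)
    have hc := (card_le_card hsub).trans (card_union_le _ _)
    have hc1 := card_union_le ((range (x + 1)).filter fun n => n ^ 3 < x ^ 2)
        ((range (x + 1)).filter fun n => P1 x n)
    have hc2 := card_union_le ((range (x + 1)).filter fun n => P2 x n)
        ((range (x + 1)).filter fun n => P3 x n)
    have e0 := small_card x
    have e1 := hCA x hx ((range (x + 1)).filter fun n => P1 x n) (by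
      intro n hn
      rw [mem_filter, mem_range] at hn
      exact ⟨by omega, hn.2⟩)
    have e2 := hCB x hx ((range (x + 1)).filter fun n => P2 x n) (by
      intro n hn
      rw [mem_filter, mem_range] at hn
      exact ⟨by omega, hn.2⟩)
    have e3 := hCR x hx ((range (x + 1)).filter fun n => P3 x n) (by
      intro n hn
      rw [mem_filter, mem_range] at hn
      exact ⟨by omega, hn.2⟩)
    have hlog := log_bd ε hε x hx
    have hl0 : 0 ≤ Real.log x := Real.log_nonneg hx1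
    have hx23 : 0 ≤ (x : ℝ) ^ (2 / 3 : ℝ) := by positivity
    have hx23le : (x : ℝ) ^ (2 / 3 : ℝ) ≤ (x : ℝ) ^ (2 / 3 + ε) :=
      Real.rpow_le_rpow_of_exponent_le hx1 (by linarith)
    have hmul : (x : ℝ) ^ ε * (x : ℝ) ^ (2 / 3 : ℝ) = (x : ℝ) ^ (2 / 3 + ε) := by
      rw [← Real.rpow_add (by linarith)]
      congr 1
      ring
    have hlog2 : (1 + Real.log x) ≤ (1 + Real.log x) ^ 2 := by nlinarith
    have f1 : CA * (1 + Real.log x) * (x : ℝ) ^ (2 / 3 : ℝ)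
        ≤ |CA| * K * (x : ℝ) ^ (2 / 3 + ε) := by
      calc CA * (1 + Real.log x) * (x : ℝ) ^ (2 / 3 : ℝ)
          ≤ |CA| * (1 + Real.log x) * (x : ℝ) ^ (2 / 3 : ℝ) := by
            gcongr
            exact le_abs_self CA
        _ ≤ |CA| * (K * (x : ℝ) ^ ε) * (x : ℝ) ^ (2 / 3 : ℝ) := by
            gcongr
            exact hlog2.trans hlog
        _ = |CA| * K * ((x : ℝ) ^ ε * (x : ℝ) ^ (2 / 3 : ℝ)) := by ring
        _ = |CA| * K * (x : ℝ) ^ (2 / 3 + ε) := by rw [hmul]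
    have f2 : CB * (1 + Real.log x) ^ 2 * (x : ℝ) ^ (2 / 3 : ℝ)
        ≤ |CB| * K * (x : ℝ) ^ (2 / 3 + ε) := by
      calc CB * (1 + Real.log x) ^ 2 * (x : ℝ) ^ (2 / 3 : ℝ)
          ≤ |CB| * (1 + Real.log x) ^ 2 * (x : ℝ) ^ (2 / 3 : ℝ) := by
            gcongr
            exact le_abs_self CB
        _ ≤ |CB| * (K * (x : ℝ) ^ ε) * (x : ℝ) ^ (2 / 3 : ℝ) := by
            gcongr
        _ = |CB| * K * ((x : ℝ) ^ ε * (x : ℝ) ^ (2 / 3 : ℝ)) := by ring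
        _ = |CB| * K * (x : ℝ) ^ (2 / 3 + ε) := by rw [hmul]
    have f3 : CR * (x : ℝ) ^ (2 / 3 + ε) ≤ |CR| * (x : ℝ) ^ (2 / 3 + ε) := by
      gcongr
      exact le_abs_self CR
    have hcard : ((EX x).card : ℝ) ≤
        (((range (x + 1)).filter fun n => n ^ 3 < x ^ 2).card : ℝ)
        + (((range (x + 1)).filter fun n => P1 x n).card : ℝ)
        + (((range (x + 1)).filter fun n => P2 x n).card : ℝ)
        + (((range (x + 1)).filter fun n => P3 x n).card : ℝ) := by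
      have := hc.trans (add_le_add hc1 hc2)
      rw [← add_assoc] at this
      exact_mod_cast this
    have hMx : 0 ≤ ((max x0 x2 + 1 : ℕ) : ℝ) * (x : ℝ) ^ (2 / 3 + ε) := by positivity
    have expand : (((max x0 x2 + 1 : ℕ) : ℝ) + 2 + |CA| * K + |CB| * K + |CR|)
        * (x : ℝ) ^ (2 / 3 + ε) = ((max x0 x2 + 1 : ℕ) : ℝ) * (x : ℝ) ^ (2 / 3 + ε)
        + 2 * (x : ℝ) ^ (2 / 3 + ε) + |CA| * K * (x : ℝ) ^ (2 / 3 + ε)
        + |CB| * K * (x : ℝ) ^ (2 / 3 + ε) + |CR| * (x : ℝ) ^ (2 / 3 + ε) := by ring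
    rw [expand]
    linarith

end Pool.Agent.H58.SP
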